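import Pool.Agent.RCM.Stmts

/-!
# RCM, row FRJ (helper1): freeze `j` elements of `T`
-/

set_option autoImplicit false

namespace Pool.Agent.RCM.H1

open Set
open Pool.Agent.RCM

universe u

/-- an independent set in the closure of a finite set is not larger -/
lemma indep_ncard_le {E : Type u} [Finite E] (M : Matroid E) {I J : Set E} (hI : M.Indep I)
    (h : I ⊆ M.closure J) : I.ncard ≤ J.ncard := by
  have h1 : I.encard ≤ J.encard :=
    calc I.encard ≤ M.eRk (M.closure J) := hI.encard_le_eRk_of_subset h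
      _ = M.eRk J := M.eRk_closure_eq J
      _ ≤ J.encard := M.eRk_le_encard J
  rw [← (Set.toFinite I).cast_ncard_eq, ← (Set.toFinite J).cast_ncard_eq] at h1
  exact_mod_cast h1

theorem frj (hUnc : UncStmt.{u}) (hFrz : FrzStmt.{u}) : FrjStmt.{u} := by
  intro E K _ _ M N κ s t P X T j hC hMx hSt
  induction j with
  | zero =>
    intro _
    refine ⟨∅, T, empty_subset _, by simp, disjoint_empty _, Relation.ReflTransGen.refl, ?_, ?_,
      ?_⟩
    · rwa [union_empty]
    · rw [union_empty]
    · intro T'' h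
      rwa [union_empty] at h
  | succ j ih =>
    intro hyp
    obtain ⟨Q, T', hQT, hQc, hPQ, hR, hSt', hPl, hRR⟩ :=
      ih fun i P' T' hi h1 h2 h3 h4 => hyp i P' T' (Nat.lt_succ_of_lt hi) h1 h2 h3 h4
    have hPQc : (P ∪ Q).ncard = P.ncard + j := by
      rw [ncard_union_eq hPQ (toFinite _) (toFinite _), hQc]
    have hlt := hyp j (P ∪ Q) T' (Nat.lt_succ_self j) subset_union_left hPQc hSt' hR
    set S' := Sta M N κ (P ∪ Q) X T' with hS'
    have hS'T : S' ⊆ T' := fun e he => he T' Relation.ReflTransGen.refl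
    have hcard : (T' \ S').ncard + S'.ncard = t := by
      rw [ncard_diff_add_ncard_of_subset hS'T (toFinite _), hSt'.card]
    -- an element to be frozen
    have hex : ∃ e ∈ T, e ∉ M.closure (S' ∪ (P ∪ Q)) := by
      by_contra hcon
      push Not at hcon
      have hP : P ⊆ M.closure (S' ∪ (P ∪ Q)) := by
        intro e he
        refine M.mem_closure_of_mem' (Or.inr (Or.inl he)) ?_
        exact hSt.fr.subset_ground (Or.inr he)
      have hle := indep_ncard_le M hSt.fr (union_subset (fun e he => hcon e he) hP)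
      have h1 : (T ∪ P).ncard = t + P.ncard := by
        rw [ncard_union_eq hSt.dj (toFinite _) (toFinite _), hSt.card]
      have h2 : (S' ∪ (P ∪ Q)).ncard ≤ S'.ncard + (P ∪ Q).ncard := ncard_union_le _ _
      omega
    obtain ⟨e, heT, he⟩ := hex
    have hT'' : ∃ T'', Rc M N κ (P ∪ Q) X T' T'' ∧ e ∉ M.closure (T'' ∪ (P ∪ Q)) := by
      by_contra hcon
      push Not at hcon
      exact he (hUnc E K M N κ s t (P ∪ Q) X T' e hC hMx hSt' hcon)
    obtain ⟨T'', hR'', he''⟩ := hT''
    obtain ⟨hF1, hF2, -, hF4, hF5⟩ := hFrz E K M N κ s t (P ∪ Q) X T' T'' e hC hMx hSt' hR'' he''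
    have heq : P ∪ insert e Q = insert e (P ∪ Q) := union_insert
    have heN : e ∉ P ∪ Q := by
      intro h
      rw [insert_eq_of_mem h] at hF2
      omega
    refine ⟨insert e Q, T'', insert_subset heT hQT, ?_, ?_, hRR T'' hR'', ?_, ?_, ?_⟩
    · rw [ncard_insert_of_notMem (fun h => heN (Or.inr h)) (toFinite _), hQc]
    · rw [disjoint_insert_right]
      exact ⟨fun h => heN (Or.inl h), hPQ⟩
    · rw [heq]; exact hF1
    · rw [heq]; exact hF4.trans hPl
    · intro T3 h3
      rw [heq] at h3
      exact hRR T3 (hF5 T3 h3).1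

end Pool.Agent.RCM.H1
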