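import Pool.Agent.RCM.Stmts

/-!
# RCM, row TWO (helper1): the `M`-closure and the `N`-closure touch disjoint parts of `T`
-/

set_option autoImplicit false

namespace Pool.Agent.RCM.H1

open Set
open Pool.Agent.RCM

universe u

/-- a set with the closure of an independent set and not more elements is independent -/
lemma indep_of_closure_eq {E : Type u} [Finite E] (M : Matroid E) {I J : Set E}
    (hI : M.Indep I) (h : M.closure J = M.closure I) (hc : J.ncard ≤ I.ncard) :
    M.Indep J ∧ J.ncard = I.ncard := by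
  have h1 : I.encard = M.eRk J := by
    rw [← hI.eRk_eq_encard, ← M.eRk_closure_eq I, ← h, M.eRk_closure_eq]
  have h2 : M.eRk J ≤ J.encard := M.eRk_le_encard J
  have h3 : J.encard ≤ I.encard := by
    rw [← (toFinite I).cast_ncard_eq, ← (toFinite J).cast_ncard_eq]
    exact_mod_cast hc
  have h4 : M.eRk J = J.encard := le_antisymm h2 (h1 ▸ h3)
  refine ⟨(Matroid.indep_iff_eRk_eq_encard_of_finite (toFinite J)).mpr h4, ?_⟩
  have h5 : J.encard = I.encard := by rw [← h4, h1]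
  rw [← (toFinite I).cast_ncard_eq, ← (toFinite J).cast_ncard_eq] at h5
  exact_mod_cast h5

/-- the first state which is not quiet -/
lemma notQuiet (hMvb : MvbStmt.{u}) (hCir : CirStmt.{u}) (hRch : RchStmt.{u})
    {E : Type u} {K : Type} [Finite E] [Finite K] {M N : Matroid E} {κ : E → K} {s t : ℕ}
    {X : Set K} {T : Set E} (hC : Col M N κ s) (hMx : Mx M N κ t) (hSt : St M N κ ∅ X t T)
    {D : Set E} (hD : D ⊆ T) {e : E} (heD : e ∈ D) (he : e ∉ Sta M N κ ∅ X T) :
    ∃ T1, Rc M N κ ∅ X T T1 ∧ D ⊆ T1 ∧ N.closure (T1 \ D) = N.closure (T \ D) ∧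
      ∃ x y, y ∈ D ∧ κ x ∉ κ '' T1 ∧ κ x ∉ X ∧ x ∉ M.closure T1 ∧ x ∉ N.closure (T1 \ {y}) := by
  by_contra hcon
  push Not at hcon
  have key : ∀ T', Rc M N κ ∅ X T T' → D ⊆ T' ∧ N.closure (T' \ D) = N.closure (T \ D) := by
    intro T' h
    induction h with
    | refl => exact ⟨hD, rfl⟩
    | @tail T' T'' hT' hmv ih =>
      obtain ⟨ih1, ih2⟩ := ih
      have hSt' : St M N κ ∅ X t T' := (hRch E K M N κ s t ∅ X T T' hC hMx hSt hT').1
      obtain ⟨x, y, hy, hx1, hx2, hx3, hx4, rfl⟩ := hmv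
      have hx3' : x ∉ M.closure T' := by rwa [union_empty] at hx3
      have hq : ∀ y' ∈ D, x ∈ N.closure (T' \ {y'}) := fun y' hy' =>
        hcon T' hT' ih1 ih2 x y' hy' hx1 hx2 hx3'
      have hyD : y ∉ D := fun h => hx4 (hq y h)
      have hxT : x ∉ T' := fun h => hx1 (mem_image_of_mem κ h)
      have hxD : x ∉ D := fun h => hxT (ih1 h)
      refine ⟨?_, ?_⟩
      · intro d hd
        refine mem_insert_of_mem _ ⟨ih1 hd, ?_⟩
        intro h
        rw [mem_singleton_iff] at h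
        exact hyD (h ▸ hd)
      · rw [← ih2]
        have hx5 : x ∈ N.closure T' := (hMvb E K M N κ s t ∅ X T' hC hMx hSt').1 x hx1 hx3
        have hx6 : x ∈ N.closure (T' \ D) :=
          hCir E N T' D x hSt'.ri.indN hx5 fun y' hy' => hq y' hy'.2
        have e1 : insert x (T' \ {y}) \ D = insert x ((T' \ D) \ {y}) := by
          rw [insert_sdiff_of_notMem _ hxD, sdiff_sdiff_comm]
        have hyTD : y ∈ T' \ D := ⟨hy, hyD⟩
        have e2 : T' \ D = insert y ((T' \ D) \ {y}) := by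
          rw [insert_sdiff_singleton, insert_eq_of_mem hyTD]
        have hx7 : x ∉ N.closure ((T' \ D) \ {y}) := fun h =>
          hx4 (N.closure_subset_closure (sdiff_subset_sdiff_left sdiff_subset) h)
        rw [e1]
        have h8 : x ∈ N.closure (insert y ((T' \ D) \ {y})) \ N.closure ((T' \ D) \ {y}) :=
          ⟨by rw [← e2]; exact hx6, hx7⟩
        have h9 := Matroid.closure_insert_congr h8
        rw [h9, ← e2]
  have he' : ∃ T', Rc M N κ ∅ X T T' ∧ e ∉ T' := by
    by_contra h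
    push Not at h
    exact he h
  obtain ⟨T', hT', heT'⟩ := he'
  exact heT' ((key T' hT').1 heD)

theorem two (hMvb : MvbStmt.{u}) (hCir : CirStmt.{u}) (hPhi : PhiStmt.{u})
    (hRch : RchStmt.{u}) : TwoStmt.{u} := by
  intro E K _ _ M N κ s t X1 X2 T hC hMx hSt1 hSt2 hX
  rw [Set.disjoint_left]
  intro e0 he0 he0'
  have hC' : Col N M κ s := ⟨hC.indN, hC.indM, hC.card⟩
  have hMx' : Mx N M κ t := fun T' h => hMx T' ⟨h.indN, h.indM, h.inj⟩
  have gM : ∀ x : E, x ∈ M.E := fun x => (hC.indM (κ x)).subset_ground rfl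
  have gN : ∀ x : E, x ∈ N.E := fun x => (hC.indN (κ x)).subset_ground rfl
  set S : Set E := Sta N M κ ∅ X2 T with hS
  have hST : S ⊆ T := fun e he => he T Relation.ReflTransGen.refl
  set D : Set E := T \ S with hD
  have hTD : T \ D = S := by rw [hD, sdiff_sdiff_right_self, inter_eq_right.mpr hST]
  -- the state `T1`
  obtain ⟨T1, hR1, hDT1, hcl1, s1, y1, hy1, hs1a, hs1b, hs1c, hs1d⟩ :=
    notQuiet hMvb hCir hRch hC hMx hSt1 (D := D) sdiff_subset he0' he0.2
  have hT1 : St M N κ ∅ X1 t T1 := (hRch E K M N κ s t ∅ X1 T T1 hC hMx hSt1 hR1).1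
  set C : Set E := {y ∈ D | s1 ∉ N.closure (T1 \ {y})} with hCdef
  have hCD : C ⊆ D := fun y hy => hy.1
  have hy1C : y1 ∈ C := ⟨hy1, hs1d⟩
  -- the state `T2`
  obtain ⟨T2, hR2, hCT2, -, s2, e, heC, hs2a, hs2b, hs2c, hs2d⟩ :=
    notQuiet hMvb hCir hRch hC' hMx' hSt2 (D := C) (hCD.trans sdiff_subset) hy1C hy1.2
  obtain ⟨hT2, -, -, hSta2, -⟩ := hRch E K N M κ s t ∅ X2 T T2 hC' hMx' hSt2 hR2
  have hST2 : S ⊆ T2 := fun x hx => hx T2 hR2
  set Q : Set E := T2 \ S with hQ
  set B : Set E := T1 \ D with hB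
  set T3 : Set E := B ∪ Q with hT3
  have hCQ : C ⊆ Q := fun x hx => ⟨hCT2 hx, (hCD hx).2⟩
  have heT1 : e ∈ T1 := hDT1 (hCD heC)
  have heQ : e ∈ Q := hCQ heC
  have heT3 : e ∈ T3 := Or.inr heQ
  -- sizes
  have cS : D.ncard + S.ncard = t := by
    rw [hD, ncard_sdiff_add_ncard_of_subset hST (toFinite _), hSt1.card]
  have cB : B.ncard + D.ncard = t := by
    rw [hB, ncard_sdiff_add_ncard_of_subset hDT1 (toFinite _), hT1.card]
  have cQ : Q.ncard + S.ncard = t := by
    rw [hQ, ncard_sdiff_add_ncard_of_subset hST2 (toFinite _), hT2.card]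
  have cT3 : T3.ncard ≤ t := by
    have h := ncard_union_le B Q
    rw [← hT3] at h
    omega
  -- `N`
  have hN1 : N.closure T3 = N.closure T2 := by
    have h1 : N.closure B = N.closure S := by rw [hcl1, hTD]
    have h2 : N.closure (B ∪ Q) = N.closure (S ∪ Q) := N.closure_union_congr_left h1
    rw [hT3, h2, hQ, union_sdiff_cancel hST2]
  obtain ⟨hN2, cT3'⟩ := indep_of_closure_eq N hT2.ri.indM hN1 (by rw [hT2.card]; exact cT3)
  rw [hT2.card] at cT3'
  have hs2N : s2 ∉ N.closure T3 := by rw [hN1]; exact hs2c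
  have hN3 : N.Indep (insert s2 T3) :=
    (hN2.notMem_closure_iff (gN s2)).mp hs2N |>.1
  have hs1N : s1 ∈ N.closure (B ∪ C) := by
    have h1 : s1 ∈ N.closure T1 :=
      (hMvb E K M N κ s t ∅ X1 T1 hC hMx hT1).1 s1 hs1a (by rw [union_empty]; exact hs1c)
    have h2 : s1 ∈ N.closure (T1 \ (D \ C)) := by
      refine hCir E N T1 (D \ C) s1 hT1.ri.indN h1 fun y hy => ?_
      by_contra h
      exact hy.2.2 ⟨hy.2.1, h⟩
    have h3 : T1 \ (D \ C) = B ∪ C := by
      rw [hB]
      ext x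
      constructor
      · rintro ⟨hx, hx'⟩
        by_cases hxC : x ∈ C
        · exact Or.inr hxC
        · exact Or.inl ⟨hx, fun h => hx' ⟨h, hxC⟩⟩
      · rintro (⟨hx, hx'⟩ | hx)
        · exact ⟨hx, fun h => hx' h.1⟩
        · exact ⟨hDT1 (hCD hx), fun h => h.2 hx⟩
    rwa [h3] at h2
  have hs2e : s2 ≠ e := by
    rintro rfl
    exact hs2a (mem_image_of_mem κ heQ.1)
  have hs1e : s1 ≠ e := by
    rintro rfl
    exact hs1a (mem_image_of_mem κ heT1)
  have hs1N' : s1 ∉ N.closure (insert s2 (T3 \ {e})) := by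
    intro h
    have hsub : insert s2 (T3 \ {e}) ∪ (B ∪ C) ⊆ insert s2 T3 := by
      refine union_subset (insert_subset_insert sdiff_subset) ?_
      refine (union_subset_union_right B hCQ).trans (subset_insert _ _)
    have h1 := (hN3.subset hsub).closure_inter_eq_inter_closure
    have h2 : s1 ∈ N.closure (insert s2 (T3 \ {e}) ∩ (B ∪ C)) := by
      rw [h1]; exact ⟨h, hs1N⟩
    refine heC.2 (N.closure_subset_closure ?_ h2)
    rintro x ⟨hx, hx'⟩
    have hxT1 : x ∈ T1 := by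
      rcases hx' with h | h
      · exact h.1
      · exact hDT1 (hCD h)
    refine ⟨hxT1, ?_⟩
    rw [mem_singleton_iff]
    rintro rfl
    rcases hx with h | h
    · exact hs2e h.symm
    · exact h.2 rfl
  have hN4 : N.Indep (insert s1 (insert s2 (T3 \ {e}))) := by
    have h1 : N.Indep (insert s2 (T3 \ {e})) :=
      hN3.subset (insert_subset_insert sdiff_subset)
    exact ((h1.notMem_closure_iff (gN s1)).mp hs1N').1
  -- `M`
  have hPhQ : M.closure Q = Ph N M κ ∅ X2 T2 := by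
    show M.closure Q = M.closure (T2 \ Sta N M κ ∅ X2 T2)
    rw [hSta2]
  have hM0 : M.closure Q = M.closure D := by
    rw [hPhQ, (hPhi E K N M κ s t ∅ X2 T hC' hMx' hSt2).2 T2 hR2]
    rfl
  have hM1 : M.closure T3 = M.closure T1 := by
    have h2 : M.closure (B ∪ Q) = M.closure (B ∪ D) := M.closure_union_congr_right hM0
    rw [hT3, h2, hB, sdiff_union_of_subset hDT1]
  obtain ⟨hM2, -⟩ := indep_of_closure_eq M hT1.ri.indM hM1 (by rw [hT1.card]; exact cT3)
  have hs1M : s1 ∉ M.closure T3 := by rw [hM1]; exact hs1c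
  have hM3 : M.Indep (insert s1 T3) := (hM2.notMem_closure_iff (gM s1)).mp hs1M |>.1
  have hs2M : s2 ∈ M.closure Q := by
    rw [hPhQ]
    exact (hPhi E K N M κ s t ∅ X2 T2 hC' hMx' hT2).1 s2 hs2a hs2b
      (by rw [union_empty]; exact hs2c)
  have hs2M' : s2 ∉ M.closure (insert s1 (T3 \ {e})) := by
    intro h
    have hsub : insert s1 (T3 \ {e}) ∪ Q ⊆ insert s1 T3 := by
      refine union_subset (insert_subset_insert sdiff_subset) ?_
      exact subset_union_right.trans (subset_insert _ _)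
    have h1 := (hM3.subset hsub).closure_inter_eq_inter_closure
    have h2 : s2 ∈ M.closure (insert s1 (T3 \ {e}) ∩ Q) := by
      rw [h1]; exact ⟨h, hs2M⟩
    refine hs2d (M.closure_subset_closure ?_ h2)
    rintro x ⟨hx, hx'⟩
    refine ⟨hx'.1, ?_⟩
    rw [mem_singleton_iff]
    rintro rfl
    rcases hx with h | h
    · exact hs1e h.symm
    · exact h.2 rfl
  have hM4 : M.Indep (insert s1 (insert s2 (T3 \ {e}))) := by
    rw [insert_comm]
    have h1 : M.Indep (insert s1 (T3 \ {e})) :=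
      hM3.subset (insert_subset_insert sdiff_subset)
    exact ((h1.notMem_closure_iff (gM s2)).mp hs2M').1
  -- colours
  have c1 : ∀ x ∈ insert s1 B, κ x ∉ κ '' D ∧ κ x ∉ X1 := by
    rintro x (rfl | hx)
    · exact ⟨fun h => hs1a (image_mono hDT1 h), hs1b⟩
    · refine ⟨?_, hT1.col x hx.1⟩
      rintro ⟨d, hd, hdx⟩
      exact hx.2 (hT1.ri.inj (hDT1 hd) hx.1 hdx ▸ hd)
  have c2 : ∀ x ∈ insert s2 Q, κ x ∉ κ '' S ∧ κ x ∉ X2 := by
    rintro x (rfl | hx)
    · exact ⟨fun h => hs2a (image_mono hST2 h), hs2b⟩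
    · refine ⟨?_, hT2.col x hx.1⟩
      rintro ⟨d, hd, hdx⟩
      exact hx.2 (hT2.ri.inj (hST2 hd) hx.1 hdx ▸ hd)
  have c3 : ∀ x ∈ insert s1 B, ∀ y ∈ insert s2 Q, κ x ≠ κ y := by
    intro x hx y hy hxy
    obtain ⟨h1, h2⟩ := c1 x hx
    obtain ⟨h3, h4⟩ := c2 y hy
    rw [← hxy] at h3 h4
    have h5 : κ x ∉ κ '' T := by
      rintro ⟨z, hz, hzx⟩
      by_cases hzS : z ∈ S
      · exact h3 ⟨z, hzS, hzx⟩
      · exact h1 ⟨z, ⟨hz, hzS⟩, hzx⟩
    rcases hX _ h5 with h | h
    · exact h2 h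
    · exact h4 h
  have i1 : InjOn κ (insert s1 B) := by
    have h1 : InjOn κ (insert s1 T1) := by
      rw [injOn_insert fun h => hs1a (mem_image_of_mem κ h)]
      exact ⟨hT1.ri.inj, hs1a⟩
    exact h1.mono (insert_subset_insert sdiff_subset)
  have i2 : InjOn κ (insert s2 Q) := by
    have h1 : InjOn κ (insert s2 T2) := by
      rw [injOn_insert fun h => hs2a (mem_image_of_mem κ h)]
      exact ⟨hT2.ri.inj, hs2a⟩
    exact h1.mono (insert_subset_insert sdiff_subset)
  have hinj : InjOn κ (insert s1 (insert s2 (T3 \ {e}))) := by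
    have hsub : insert s1 (insert s2 (T3 \ {e})) ⊆ insert s1 B ∪ insert s2 Q := by
      rintro x (rfl | rfl | ⟨hx | hx, -⟩)
      · exact Or.inl (mem_insert _ _)
      · exact Or.inr (mem_insert _ _)
      · exact Or.inl (mem_insert_of_mem _ hx)
      · exact Or.inr (mem_insert_of_mem _ hx)
    intro x hx y hy hxy
    rcases hsub hx with hx | hx <;> rcases hsub hy with hy | hy
    · exact i1 hx hy hxy
    · exact absurd hxy (c3 x hx y hy)
    · exact absurd hxy.symm (c3 y hy x hx)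
    · exact i2 hx hy hxy
  -- size
  have n1 : s2 ∉ T3 \ {e} := fun h => hs2N (N.mem_closure_of_mem' h.1 (gN s2))
  have n2 : s1 ∉ insert s2 (T3 \ {e}) := by
    rintro (h | h)
    · exact c3 s1 (mem_insert _ _) s2 (mem_insert _ _) (by rw [h])
    · exact hs1M (M.mem_closure_of_mem' h.1 (gM s1))
  have hfin := hMx _ ⟨hM4, hN4, hinj⟩
  rw [ncard_insert_of_notMem n2 (toFinite _), ncard_insert_of_notMem n1 (toFinite _)] at hfin
  have h3 : (T3 \ {e}).ncard + 1 = T3.ncard := ncard_sdiff_singleton_add_one heT3 (toFinite _)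
  omega

end Pool.Agent.RCM.H1
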